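import Pool.Agent.Helper98.TW.Basic

/-!
Row JSW of the sheet TW (MP_7a8f48_an): exchange of the two coordinates of a joining.
-/

open MeasureTheory Filter Topology Finset
open scoped ComplexConjugate

namespace Pool.Agent.Helper64.TWR

open Pool.Agent.Helper16.AZ (T mm)
open Pool.Agent.Helper98.TW

variable {N : ℕ}

theorem cm_swap_jo (lev : Fin N → ℕ) (l j : ℕ) :
    cm (Prod.swap : T N × T N → T N × T N) (jo (A1 lev l) (B1 lev j)) =
      jo (A1 lev j) (B1 lev l) := by
  unfold cm jo A1 B1 cm
  rw [MeasurableSpace.comap_sup, MeasurableSpace.comap_comp, MeasurableSpace.comap_comp]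
  exact sup_comm (α := MeasurableSpace (T N × T N)) _ _

theorem am_swap {κ : Measure (T N × T N)} (lev : Fin N → ℕ) (l j : ℕ) (F : T N × T N → ℂ)
    (h : AM (κ.map Prod.swap) (jo (A1 lev l) (B1 lev j)) F) :
    AM κ (jo (A1 lev j) (B1 lev l)) (fun z => F z.swap) := by
  obtain ⟨g, hg, hFg⟩ := am_iff.1 h
  refine am_iff.2 ⟨fun z => g z.swap, ?_, ae_of_ae_map measurable_swap.aemeasurable hFg⟩
  rw [← cm_swap_jo lev l j]
  intro s hs
  exact ⟨g ⁻¹' s, hg hs, rfl⟩

theorem map_swap_swap (κ : Measure (T N × T N)) :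
    (κ.map Prod.swap).map Prod.swap = κ := by
  rw [Measure.map_map measurable_swap measurable_swap]
  simp

theorem st_JSW : ST_JSW := by
  intro N f p q κ h
  refine ⟨⟨?_, ?_, ?_, ?_⟩, ?_⟩
  · have := h.prob
    exact Measure.isProbabilityMeasure_map measurable_swap.aemeasurable
  · rw [Measure.map_map measurable_fst measurable_swap]
    exact h.snd
  · rw [Measure.map_map measurable_snd measurable_swap]
    exact h.fst
  · have hmp : MeasurePreserving (MeasurableEquiv.prodComm : T N × T N ≃ᵐ T N × T N) κ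
        (κ.map Prod.swap) := ⟨MeasurableEquiv.prodComm.measurable, rfl⟩
    have := (hmp.ergodic_conjugate_iff).2 h.erg
    have h2 : (MeasurableEquiv.prodComm : T N × T N ≃ᵐ T N × T N) ∘
        (Prod.map (SS f)^[p] (SS f)^[q]) ∘ (MeasurableEquiv.prodComm : T N × T N ≃ᵐ T N × T N).symm
        = Prod.map (SS f)^[q] (SS f)^[p] := by
      funext z
      rfl
    rw [h2] at this
    exact this
  · intro lev l j F
    refine ⟨am_swap lev l j F, fun hF => ?_⟩
    have h1 : AM ((κ.map Prod.swap).map Prod.swap) (jo (A1 lev j) (B1 lev l))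
        (fun z => F z.swap) := by
      rw [map_swap_swap]
      exact hF
    exact am_swap lev j l _ h1

end Pool.Agent.Helper64.TWR
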